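import Mathlib

/-!
# The cone of a set of integer points

A new point `(1, 0)` is added to `{0} × Y`. The determinants of differences do not become larger.
-/

set_option autoImplicit false

namespace H2C

open Finset

/-- `{0} × Y` and the point `(1, 0)`. -/
def cone {b : ℕ} (Y : Finset (Fin b → ℤ)) : Finset (Fin (b + 1) → ℤ) :=
  insert (Fin.cons 1 0 : Fin (b + 1) → ℤ) (Y.image fun y => (Fin.cons 0 y : Fin (b + 1) → ℤ))

theorem mem_cone {b : ℕ} {Y : Finset (Fin b → ℤ)} {x : Fin (b + 1) → ℤ} :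
    x ∈ cone Y ↔ x = Fin.cons 1 0 ∨ ∃ y ∈ Y, x = Fin.cons 0 y := by
  simp only [cone, mem_insert, mem_image, eq_comm]

theorem card_cone {b : ℕ} (Y : Finset (Fin b → ℤ)) : (cone Y).card = Y.card + 1 := by
  rw [cone, Finset.card_insert_of_notMem, Finset.card_image_of_injective]
  · intro y y' h
    exact (Fin.cons_injective2 h).2
  · simp only [mem_image, not_exists, not_and]
    intro y _ h
    have := congrFun h 0
    simp at this

/-- The determinants of `b + 1` differences of points of the cone are at most the ones of `Y`. -/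
theorem cone_det {b : ℕ} (Y : Finset (Fin b → ℤ)) (D : ℤ)
    (hD : ∀ u v : Fin b → Fin b → ℤ, (∀ l, u l ∈ Y) → (∀ l, v l ∈ Y) →
      |(Matrix.of fun l j : Fin b => u l j - v l j).det| ≤ D)
    (hY : Y.Nonempty) (u v : Fin (b + 1) → Fin (b + 1) → ℤ) (hu : ∀ l, u l ∈ cone Y) (hv : ∀ l, v l ∈ cone Y) :
    |(Matrix.of fun l j : Fin (b + 1) => u l j - v l j).det| ≤ D := by
  classical
  obtain ⟨y0, hy0⟩ := hY
  have hD0 : 0 ≤ D := (abs_nonneg _).trans (hD (fun _ => y0) (fun _ => y0) (fun _ => hy0) (fun _ => hy0))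
  set B : Matrix (Fin (b + 1)) (Fin (b + 1)) ℤ := Matrix.of fun l j => u l j - v l j with hB
  -- the rows are `(0, y - y')`, `(1, -y)` or `(-1, y)`
  have hrow : ∀ l, (∃ y ∈ Y, ∃ y' ∈ Y, B l 0 = 0 ∧ ∀ j : Fin b, B l j.succ = y j - y' j) ∨
      ∃ y ∈ Y, (B l 0 = 1 ∧ ∀ j : Fin b, B l j.succ = - y j) ∨ (B l 0 = -1 ∧ ∀ j : Fin b, B l j.succ = y j) := by
    intro l
    rcases mem_cone.1 (hu l) with h1 | ⟨y, hy, h1⟩ <;> rcases mem_cone.1 (hv l) with h2 | ⟨y', hy', h2⟩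
    · left
      exact ⟨y0, hy0, y0, hy0, by simp [hB, h1, h2], fun j => by simp [hB, h1, h2]⟩
    · right
      exact ⟨y', hy', Or.inl ⟨by simp [hB, h1, h2], fun j => by simp [hB, h1, h2]⟩⟩
    · right
      exact ⟨y, hy, Or.inr ⟨by simp [hB, h1, h2], fun j => by simp [hB, h1, h2]⟩⟩
    · left
      exact ⟨y, hy, y', hy', by simp [hB, h1, h2], fun j => by simp [hB, h1, h2]⟩
  by_cases hz : ∀ l, B l 0 = 0
  · rw [Matrix.det_eq_zero_of_column_eq_zero 0 hz, abs_zero]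
    exact hD0
  push Not at hz
  obtain ⟨k, hk⟩ := hz
  -- subtract multiples of row `k`
  have hk2 : B k 0 * B k 0 = 1 := by
    rcases hrow k with ⟨y, hy, y', hy', h, -⟩ | ⟨y, hy, ⟨h, -⟩ | ⟨h, -⟩⟩
    · exact absurd h hk
    · rw [h]; norm_num
    · rw [h]; norm_num
  set c : Fin (b + 1) → ℤ := fun l => if l = k then 0 else B l 0 * B k 0 with hc
  set C : Matrix (Fin (b + 1)) (Fin (b + 1)) ℤ := Matrix.of fun l j => B l j - c l * B k j with hC
  have hdet : B.det = C.det := by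
    refine Matrix.det_eq_of_forall_row_eq_smul_add_const c k (by simp [hc]) ?_
    intro i j
    have hck : c k = 0 := by simp [hc]
    simp only [hC, Matrix.of_apply, hck]
    ring
  have hCk : ∀ j, C k j = B k j := fun j => by simp [hC, hc]
  have hC0 : ∀ l, l ≠ k → C l 0 = 0 := by
    intro l hl
    simp only [hC, hc, Matrix.of_apply, if_neg hl]
    linear_combination (-(B l 0)) * hk2
  rw [hdet, Matrix.det_succ_column_zero, Finset.sum_eq_single k]
  · have h1 : |(-1 : ℤ) ^ (k : ℕ) * C k 0| = 1 := by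
      rw [abs_mul, abs_pow, abs_neg, abs_one, one_pow, one_mul, hCk]
      rcases hrow k with ⟨y, hy, y', hy', h, -⟩ | ⟨y, hy, ⟨h, -⟩ | ⟨h, -⟩⟩
      · exact absurd h hk
      · rw [h]; norm_num
      · rw [h]; norm_num
    rw [abs_mul, h1, one_mul]
    have key : ∀ l : Fin b, ∃ p : (Fin b → ℤ) × (Fin b → ℤ), p.1 ∈ Y ∧ p.2 ∈ Y ∧
        ∀ j : Fin b, C (k.succAbove l) j.succ = p.1 j - p.2 j := by
      intro l
      have hl : k.succAbove l ≠ k := Fin.succAbove_ne k l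
      have hCl : ∀ j : Fin b, C (k.succAbove l) j.succ =
          B (k.succAbove l) j.succ - B (k.succAbove l) 0 * B k 0 * B k j.succ := by
        intro j
        simp only [hC, hc, Matrix.of_apply, if_neg hl]
      rcases hrow (k.succAbove l) with ⟨y, hy, y', hy', h, h'⟩ | ⟨y, hy, ⟨h, h'⟩ | ⟨h, h'⟩⟩
      · exact ⟨(y, y'), hy, hy', fun j => by rw [hCl, h, h']; ring⟩
      · rcases hrow k with ⟨z, hz, z', hz', g, -⟩ | ⟨z, hz, ⟨g, g'⟩ | ⟨g, g'⟩⟩
        · exact absurd g hk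
        · exact ⟨(z, y), hz, hy, fun j => by rw [hCl, h, h', g, g']; ring⟩
        · exact ⟨(z, y), hz, hy, fun j => by rw [hCl, h, h', g, g']; ring⟩
      · rcases hrow k with ⟨z, hz, z', hz', g, -⟩ | ⟨z, hz, ⟨g, g'⟩ | ⟨g, g'⟩⟩
        · exact absurd g hk
        · exact ⟨(y, z), hy, hz, fun j => by rw [hCl, h, h', g, g']; ring⟩
        · exact ⟨(y, z), hy, hz, fun j => by rw [hCl, h, h', g, g']; ring⟩
    choose p hp1 hp2 hp3 using key
    have h2 : C.submatrix k.succAbove Fin.succ = Matrix.of fun l j : Fin b => (p l).1 j - (p l).2 j := by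
      ext l j
      rw [Matrix.submatrix_apply, Matrix.of_apply, hp3]
    rw [h2]
    exact hD _ _ hp1 hp2
  · intro l _ hl
    rw [hC0 l hl]
    ring
  · intro h
    exact absurd (mem_univ _) h

theorem cone_ne {b : ℕ} (Y : Finset (Fin b → ℤ)) (hY : Y.Nonempty)
    (h : ∃ u v : Fin b → Fin b → ℤ, (∀ l, u l ∈ Y) ∧ (∀ l, v l ∈ Y) ∧
      (Matrix.of fun l j : Fin b => u l j - v l j).det ≠ 0) :
    ∃ u v : Fin (b + 1) → Fin (b + 1) → ℤ, (∀ l, u l ∈ cone Y) ∧ (∀ l, v l ∈ cone Y) ∧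
      (Matrix.of fun l j : Fin (b + 1) => u l j - v l j).det ≠ 0 := by
  obtain ⟨y0, hy0⟩ := hY
  obtain ⟨u, v, hu, hv, hne⟩ := h
  refine ⟨Fin.cons (Fin.cons 1 0) fun l => Fin.cons 0 (u l), Fin.cons (Fin.cons 0 y0) fun l => Fin.cons 0 (v l),
    fun l => ?_, fun l => ?_, ?_⟩
  · refine Fin.cases ?_ (fun l => ?_) l
    · exact mem_cone.2 (Or.inl (by simp))
    · exact mem_cone.2 (Or.inr ⟨u l, hu l, by simp⟩)
  · refine Fin.cases ?_ (fun l => ?_) l
    · exact mem_cone.2 (Or.inr ⟨y0, hy0, by simp⟩)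
    · exact mem_cone.2 (Or.inr ⟨v l, hv l, by simp⟩)
  · rw [Matrix.det_succ_column_zero, Finset.sum_eq_single 0]
    · have h2 : (Matrix.of fun l j : Fin (b + 1) =>
          (Fin.cons (Fin.cons 1 0) (fun l => Fin.cons 0 (u l)) : Fin (b + 1) → Fin (b + 1) → ℤ) l j -
          (Fin.cons (Fin.cons 0 y0) (fun l => Fin.cons 0 (v l)) : Fin (b + 1) → Fin (b + 1) → ℤ) l j).submatrix
            (Fin.succAbove 0) Fin.succ = Matrix.of fun l j : Fin b => u l j - v l j := by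
        ext l j
        simp
      rw [h2]
      simpa using hne
    · intro l _ hl
      obtain ⟨l', rfl⟩ := Fin.exists_succ_eq.2 hl
      simp
    · intro h
      exact absurd (mem_univ _) h

/-- `k` cones. -/
theorem exists_cones (k : ℕ) {b : ℕ} (Y : Finset (Fin b → ℤ)) (D : ℤ) (hYn : Y.Nonempty)
    (hD : ∀ u v : Fin b → Fin b → ℤ, (∀ l, u l ∈ Y) → (∀ l, v l ∈ Y) →
      |(Matrix.of fun l j : Fin b => u l j - v l j).det| ≤ D)
    (hY : ∃ u v : Fin b → Fin b → ℤ, (∀ l, u l ∈ Y) ∧ (∀ l, v l ∈ Y) ∧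
      (Matrix.of fun l j : Fin b => u l j - v l j).det ≠ 0) :
    ∃ Z : Finset (Fin (b + k) → ℤ), Z.card = Y.card + k ∧ Z.Nonempty ∧
      (∀ u v : Fin (b + k) → Fin (b + k) → ℤ, (∀ l, u l ∈ Z) → (∀ l, v l ∈ Z) →
        |(Matrix.of fun l j : Fin (b + k) => u l j - v l j).det| ≤ D) ∧
      (∃ u v : Fin (b + k) → Fin (b + k) → ℤ, (∀ l, u l ∈ Z) ∧ (∀ l, v l ∈ Z) ∧
        (Matrix.of fun l j : Fin (b + k) => u l j - v l j).det ≠ 0) := by
  induction k with
  | zero => exact ⟨Y, rfl, hYn, hD, hY⟩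
  | succ k ih =>
    obtain ⟨Z, h1, h2, h3, h4⟩ := ih
    refine ⟨cone Z, ?_, ⟨_, mem_cone.2 (Or.inl rfl)⟩, fun u v hu hv => cone_det Z D h3 h2 u v hu hv,
      cone_ne Z h2 h4⟩
    rw [card_cone, h1]
    rfl

end H2C
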